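import Pool.Agent.Helper81.RG.Upper
import Pool.Agent.Helper25.RC.Energy

/-!
From sums of the weights over quadruples to the additive energy.
-/

set_option autoImplicit false

open Finset MeasureTheory intervalIntegral Pool.Agent.Helper25.RC

namespace Pool.Agent.Helper81.RG

/-- the sum of `W (a₁ + a₂ - a₃ - a₄)` over the quadruples of elements of `S` -/
noncomputable def quad (S : Finset ℕ) (W : ℝ → ℝ) : ℝ :=
  ∑ p ∈ (S ×ˢ S) ×ˢ (S ×ˢ S), W ((p.1.1 : ℝ) + p.1.2 - (p.2.1 + p.2.2))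

theorem quad_eq {x : ℕ} {S : Finset ℕ} (hS : S ⊆ range x) (W : ℝ → ℝ) :
    quad S W = ∑ n ∈ range (2 * x), ∑ n' ∈ range (2 * x),
      (repF S n : ℝ) * repF S n' * W ((n : ℝ) - n') := by
  unfold quad
  rw [Finset.sum_product]
  have h1 := sum_add S hS (fun n => ∑ q ∈ S ×ˢ S, W ((n : ℝ) - (q.1 + q.2)))
  simp only [Nat.cast_add] at h1
  rw [h1]
  refine Finset.sum_congr rfl fun n _ => ?_
  have h2 := sum_add S hS (fun n' => W ((n : ℝ) - n'))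
  simp only [Nat.cast_add] at h2
  rw [h2, Finset.mul_sum]
  refine Finset.sum_congr rfl fun n' _ => ?_
  ring

theorem quad_le {x : ℕ} {S : Finset ℕ} (hS : S ⊆ range x) (W : ℝ → ℝ) (hW : ∀ s, 0 ≤ W s)
    (B : ℝ) (h1 : ∀ n : ℕ, ∑ n' ∈ range (2 * x), W ((n : ℝ) - n') ≤ B)
    (h2 : ∀ n : ℕ, ∑ n' ∈ range (2 * x), W ((n' : ℝ) - n) ≤ B) :
    quad S W ≤ B * ∑ n ∈ range (2 * x), (repF S n : ℝ) ^ 2 := by
  rw [quad_eq hS]
  have h3 : ∑ n ∈ range (2 * x), ∑ n' ∈ range (2 * x), (repF S n : ℝ) * repF S n' * W ((n : ℝ) - n')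
      ≤ ∑ n ∈ range (2 * x), ∑ n' ∈ range (2 * x),
        ((repF S n : ℝ) ^ 2 / 2 * W ((n : ℝ) - n') + (repF S n' : ℝ) ^ 2 / 2 * W ((n : ℝ) - n')) := by
    refine Finset.sum_le_sum fun n _ => Finset.sum_le_sum fun n' _ => ?_
    have := two_mul_le_add_sq (repF S n : ℝ) (repF S n' : ℝ)
    have h4 : (repF S n : ℝ) * repF S n' ≤ (repF S n : ℝ) ^ 2 / 2 + (repF S n' : ℝ) ^ 2 / 2 := by
      linarith
    calc (repF S n : ℝ) * repF S n' * W ((n : ℝ) - n')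
        ≤ ((repF S n : ℝ) ^ 2 / 2 + (repF S n' : ℝ) ^ 2 / 2) * W ((n : ℝ) - n') :=
          mul_le_mul_of_nonneg_right h4 (hW _)
      _ = _ := by ring
  refine h3.trans ?_
  simp only [Finset.sum_add_distrib]
  have h5 : ∑ n ∈ range (2 * x), ∑ n' ∈ range (2 * x), (repF S n : ℝ) ^ 2 / 2 * W ((n : ℝ) - n')
      ≤ B / 2 * ∑ n ∈ range (2 * x), (repF S n : ℝ) ^ 2 := by
    rw [Finset.mul_sum]
    refine Finset.sum_le_sum fun n _ => ?_
    rw [← Finset.mul_sum]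
    have := mul_le_mul_of_nonneg_left (h1 n) (show 0 ≤ (repF S n : ℝ) ^ 2 / 2 by positivity)
    linarith
  have h6 : ∑ n ∈ range (2 * x), ∑ n' ∈ range (2 * x), (repF S n' : ℝ) ^ 2 / 2 * W ((n : ℝ) - n')
      ≤ B / 2 * ∑ n ∈ range (2 * x), (repF S n : ℝ) ^ 2 := by
    rw [Finset.sum_comm, Finset.mul_sum]
    refine Finset.sum_le_sum fun n _ => ?_
    rw [← Finset.mul_sum]
    have := mul_le_mul_of_nonneg_left (h2 n) (show 0 ≤ (repF S n : ℝ) ^ 2 / 2 by positivity)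
    linarith
  linarith

theorem row1 (W : ℝ → ℝ) (x n : ℕ) : ∑ n' ∈ range (2 * x), W ((n : ℝ) - n')
    = sumI W ((n : ℝ) - 2 * x + 1) ((n : ℝ) - 2 * x + 1 + 2 * x) := by
  unfold sumI
  have e1 : ⌈(n : ℝ) - 2 * x + 1⌉ = (n : ℤ) - 2 * x + 1 := by
    have : (n : ℝ) - 2 * x + 1 = (((n : ℤ) - 2 * x + 1 : ℤ) : ℝ) := by push_cast; ring
    rw [this, Int.ceil_intCast]
  have e2 : ⌈(n : ℝ) - 2 * x + 1 + 2 * x⌉ = (n : ℤ) + 1 := by
    have : (n : ℝ) - 2 * x + 1 + 2 * x = (((n : ℤ) + 1 : ℤ) : ℝ) := by push_cast; ring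
    rw [this, Int.ceil_intCast]
  rw [e1, e2]
  refine Finset.sum_nbij' (fun n' : ℕ => (n : ℤ) - n') (fun d => (n - d).toNat) ?_ ?_ ?_ ?_ ?_
  · intro n' hn'
    rw [mem_range] at hn'
    rw [Finset.mem_Ico]
    constructor <;> omega
  · intro d hd
    rw [Finset.mem_Ico] at hd
    rw [mem_range]
    omega
  · intro n' _
    simp
  · intro d hd
    rw [Finset.mem_Ico] at hd
    omega
  · intro n' _
    push_cast
    rfl

theorem row2 (W : ℝ → ℝ) (x n : ℕ) : ∑ n' ∈ range (2 * x), W ((n' : ℝ) - n)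
    = sumI W (-(n : ℝ)) (-(n : ℝ) + 2 * x) := by
  unfold sumI
  have e1 : ⌈-(n : ℝ)⌉ = -(n : ℤ) := by
    have : -(n : ℝ) = ((-(n : ℤ) : ℤ) : ℝ) := by push_cast; ring
    rw [this, Int.ceil_intCast]
  have e2 : ⌈-(n : ℝ) + 2 * x⌉ = -(n : ℤ) + 2 * x := by
    have : -(n : ℝ) + 2 * x = ((-(n : ℤ) + 2 * x : ℤ) : ℝ) := by push_cast; ring
    rw [this, Int.ceil_intCast]
  rw [e1, e2]
  refine Finset.sum_nbij' (fun n' : ℕ => (n' : ℤ) - n) (fun d => (d + n).toNat) ?_ ?_ ?_ ?_ ?_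
  · intro n' hn'
    rw [mem_range] at hn'
    rw [Finset.mem_Ico]
    constructor <;> omega
  · intro d hd
    rw [Finset.mem_Ico] at hd
    rw [mem_range]
    omega
  · intro n' _
    simp
  · intro d hd
    rw [Finset.mem_Ico] at hd
    omega
  · intro n' _
    push_cast
    rfl

/-- the moduli with a first one equal to `1` -/
noncomputable def shift (M : ℕ → ℝ) : ℕ → ℝ
  | 0 => 1
  | i + 1 => M i

theorem WK_shift (V : ℝ → ℝ) (M : ℕ → ℝ) (k : ℕ) (s : ℝ) :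
    WK V (shift M) k s = ∏ i ∈ range k, V (s / M i) := rfl

theorem quad_upper {x : ℕ} {S : Finset ℕ} (hS : S ⊆ range x) (V : ℝ → ℝ) (hV0 : ∀ u, 0 ≤ V u)
    (hper : Function.Periodic V 1) (κ : ℝ) (hκ : 0 ≤ κ)
    (hLip : ∀ u v, |V u - V v| ≤ κ * |u - v|) (hint : (∫ u in (0 : ℝ)..1, V u) ≤ 1)
    (ρ : ℝ) (hρ : 1 ≤ ρ) (M : ℕ → ℝ) (k : ℕ) (h0 : 0 < k → ρ ^ 2 ≤ M 0)
    (hM : ∀ i, i + 1 < k → ρ ^ 2 * M i ≤ M (i + 1)) (hx : 0 < k → ρ * M (k - 1) ≤ 2 * x) :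
    quad S (fun s => ∏ i ∈ range k, V (s / M i))
      ≤ 2 * x * (1 + (2 + 2 * κ) / ρ) ^ (k + 1) * ∑ n ∈ range (2 * x), (repF S n : ℝ) ^ 2 := by
  have hη : 0 ≤ (2 + 2 * κ) / ρ := by positivity
  rcases Nat.eq_zero_or_pos k with rfl | hk
  · refine (quad_le hS _ (fun s => by simp) (2 * x) (fun n => by simp) (fun n => by simp)).trans ?_
    have h1 : (1 : ℝ) ≤ (1 + (2 + 2 * κ) / ρ) ^ (0 + 1) := one_le_pow₀ (by linarith)
    have h2 : (0 : ℝ) ≤ 2 * x := by positivity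
    exact mul_le_mul_of_nonneg_right (le_mul_of_one_le_right h2 h1) (by positivity)
  · have hsh : ∀ i < k, ρ ^ 2 * shift M i ≤ shift M (i + 1) := by
      intro i hi
      cases i with
      | zero => simpa [shift] using h0 hk
      | succ i => exact hM i hi
    have hk1 : shift M k = M (k - 1) := by
      obtain ⟨j, rfl⟩ := Nat.exists_eq_succ_of_ne_zero hk.ne'
      rfl
    have hup := upper V hV0 hper κ hκ hLip hint ρ hρ (shift M) rfl k hsh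
    have hL : ρ * shift M k ≤ 2 * x := by rw [hk1]; exact hx hk
    refine quad_le hS _ (fun s => Finset.prod_nonneg fun _ _ => hV0 _) _ (fun n => ?_) (fun n => ?_)
    · exact (row1 (WK V (shift M) k) x n).trans_le (hup _ _ hL)
    · exact (row2 (WK V (shift M) k) x n).trans_le (hup _ _ hL)

/-- the numbers: from the growth of the sums over quadruples to the energy -/
theorem energy_of_growth {x : ℕ} {S : Finset ℕ} (hS : S ⊆ range x) (V : ℝ → ℝ)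
    (hV0 : ∀ u, 0 ≤ V u) (hper : Function.Periodic V 1) {b : ℝ} (hb : 0 < b) (hb2 : b ≤ 1 / 2)
    (hLip : ∀ u v, |V u - V v| ≤ 1 / (2 * b ^ 2) * |u - v|)
    (hint : (∫ u in (0 : ℝ)..1, V u) ≤ 1)
    (M : ℕ → ℝ) (k : ℕ) (h0 : 0 < k → (24 / b ^ 5) ^ 2 ≤ M 0)
    (hM : ∀ i, i + 1 < k → (24 / b ^ 5) ^ 2 * M i ≤ M (i + 1))
    (hx : 0 < k → 24 / b ^ 5 * M (k - 1) ≤ 2 * x)
    (hgrow : (#S : ℝ) ^ 4 * (1 + 1 / (2 * (1 / b - 1) ^ 3)) ^ k
      ≤ quad S (fun s => ∏ i ∈ range k, V (s / M i))) :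
    (#S : ℝ) ^ 4 * (1 + b ^ 3 / 4) ^ k ≤ 4 * x * ∑ n ∈ range (2 * x), (repF S n : ℝ) ^ 2 := by
  have hb5 : b ^ 5 ≤ 1 := pow_le_one₀ hb.le (by linarith)
  have hρ : (1 : ℝ) ≤ 24 / b ^ 5 := by
    rw [le_div_iff₀ (by positivity)]; linarith
  have h1 := quad_upper hS V hV0 hper (1 / (2 * b ^ 2)) (by positivity) hLip hint (24 / b ^ 5) hρ
    M k h0 hM hx
  set E : ℝ := ∑ n ∈ range (2 * x), (repF S n : ℝ) ^ 2 with hE
  have hE0 : 0 ≤ E := by positivity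
  set η : ℝ := (2 + 2 * (1 / (2 * b ^ 2))) / (24 / b ^ 5) with hη
  have hη1 : η ≤ b ^ 3 / 8 := by
    have e : η = b ^ 3 * ((2 * b ^ 2 + 1) / 24) := by
      have hb' : b ≠ 0 := hb.ne'
      have e3 : 2 * (1 / (2 * b ^ 2)) = 1 / b ^ 2 := by field_simp
      rw [hη, e3, div_eq_iff (by positivity)]
      field_simp
    have e2 : (2 * b ^ 2 + 1) / 24 ≤ 1 / 8 := by nlinarith
    rw [e]
    calc b ^ 3 * ((2 * b ^ 2 + 1) / 24) ≤ b ^ 3 * (1 / 8) :=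
          mul_le_mul_of_nonneg_left e2 (by positivity)
      _ = b ^ 3 / 8 := by ring
  have hη0 : 0 ≤ η := by positivity
  have hb3 : b ^ 3 ≤ 1 / 8 := by
    have := pow_le_pow_left₀ hb.le hb2 3
    norm_num at this ⊢
    linarith
  have hb30 : 0 < b ^ 3 := by positivity
  have hC0 : 0 < 1 / b - 1 := by
    have : 2 ≤ 1 / b := by rw [le_div_iff₀ hb]; linarith
    linarith
  have hC : b ^ 3 ≤ 1 / (1 / b - 1) ^ 3 := by
    rw [le_div_iff₀ (by positivity), ← mul_pow]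
    have e : b * (1 / b - 1) = 1 - b := by field_simp
    rw [e]
    exact pow_le_one₀ (by linarith) (by linarith)
  have hstep : (1 + b ^ 3 / 4) * (1 + η) ≤ 1 + 1 / (2 * (1 / b - 1) ^ 3) := by
    have e1 : 1 / (2 * (1 / b - 1) ^ 3) = 1 / (1 / b - 1) ^ 3 / 2 := by
      rw [div_div, mul_comm]
    rw [e1]
    have e2 : (1 + b ^ 3 / 4) * (1 + η) ≤ (1 + b ^ 3 / 4) * (1 + b ^ 3 / 8) :=
      mul_le_mul_of_nonneg_left (by linarith) (by positivity)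
    nlinarith
  have h2 : (#S : ℝ) ^ 4 * ((1 + b ^ 3 / 4) * (1 + η)) ^ k ≤ 2 * x * (1 + η) ^ (k + 1) * E := by
    refine le_trans ?_ (hgrow.trans h1)
    exact mul_le_mul_of_nonneg_left (pow_le_pow_left₀ (by positivity) hstep k) (by positivity)
  rw [mul_pow, pow_succ (1 + η) k] at h2
  have hp : 0 < (1 + η) ^ k := by positivity
  have h3 : ((#S : ℝ) ^ 4 * (1 + b ^ 3 / 4) ^ k) * (1 + η) ^ k
      ≤ (2 * x * (1 + η) * E) * (1 + η) ^ k := by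
    calc ((#S : ℝ) ^ 4 * (1 + b ^ 3 / 4) ^ k) * (1 + η) ^ k
        = (#S : ℝ) ^ 4 * ((1 + b ^ 3 / 4) ^ k * (1 + η) ^ k) := by ring
      _ ≤ 2 * x * ((1 + η) ^ k * (1 + η)) * E := h2
      _ = _ := by ring
  have h4 := le_of_mul_le_mul_right h3 hp
  refine h4.trans ?_
  have h5 : 2 * (x : ℝ) * (1 + η) ≤ 4 * x := by
    have : (0 : ℝ) ≤ x := by positivity
    nlinarith
  exact mul_le_mul_of_nonneg_right h5 hE0

end Pool.Agent.Helper81.RG
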