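import Pool.Agent.Helper73.RG.Tent

/-!
Lipschitz bound and integral of the tent function.
-/

set_option autoImplicit false

open Finset Real MeasureTheory intervalIntegral

namespace Pool.Agent.Helper81.RG

open Pool.Agent.Helper73.RG

theorem tent_periodic (b : ℝ) : Function.Periodic (tent b) 1 := by
  intro u
  unfold tent
  have h1 := round_add_intCast u 1
  simp only [Int.cast_one] at h1
  rw [h1]
  have h2 : u + 1 - ((round u + 1 : ℤ) : ℝ) = u - round u := by push_cast; ring
  rw [h2]

theorem dist_lip (u v : ℝ) : abs (abs (u - round u) - abs (v - round v)) ≤ abs (u - v) := by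
  have h1 : ∀ u v : ℝ, abs (u - round u) ≤ abs (v - round v) + abs (u - v) := by
    intro u v
    have h2 := round_le u (round v)
    have h3 : abs (u - round v) ≤ abs (u - v) + abs (v - round v) := by
      have := abs_add_le (u - v) (v - round v)
      have e : u - v + (v - round v) = u - round v := by ring
      rwa [e] at this
    linarith
  rw [abs_le]
  have h3 := h1 u v
  have h4 := h1 v u
  rw [abs_sub_comm v u] at h4
  constructor <;> linarith

theorem tent_lip {b : ℝ} (hb : 0 < b) (u v : ℝ) :
    abs (tent b u - tent b v) ≤ 1 / b ^ 2 * abs (u - v) := by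
  unfold tent
  rw [← mul_sub, abs_mul, abs_of_pos (show 0 < 1 / b by positivity)]
  have h1 : abs (max 0 (1 - abs (u - round u) / b) - max 0 (1 - abs (v - round v) / b))
      ≤ abs ((1 - abs (u - round u) / b) - (1 - abs (v - round v) / b)) := by
    have := abs_max_sub_max_le_abs (1 - abs (u - round u) / b) (1 - abs (v - round v) / b) 0
    rwa [max_comm _ (0 : ℝ), max_comm _ (0 : ℝ)] at this
  have h2 : (1 - abs (u - round u) / b) - (1 - abs (v - round v) / b)
      = (abs (v - round v) - abs (u - round u)) / b := by ring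
  rw [h2, abs_div, abs_of_pos hb] at h1
  have h3 := dist_lip v u
  have h4 : abs (abs (v - round v) - abs (u - round u)) / b ≤ abs (u - v) / b := by
    rw [abs_sub_comm u v]
    exact div_le_div_of_nonneg_right h3 hb.le
  refine (mul_le_mul_of_nonneg_left (h1.trans h4) (show 0 ≤ 1 / b by positivity)).trans_eq ?_
  field_simp

theorem tent_fract (b u : ℝ) : tent b u
    = 1 / b * max 0 (1 - min (Int.fract u) (1 - Int.fract u) / b) := by
  unfold tent
  rw [abs_sub_round_eq_min]

theorem tent_cont {b : ℝ} (hb : 0 < b) : Continuous (tent b) := by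
  rw [Metric.continuous_iff]
  intro u ε hε
  refine ⟨ε * b ^ 2, by positivity, fun v hv => ?_⟩
  rw [Real.dist_eq] at hv ⊢
  refine (tent_lip hb v u).trans_lt ?_
  calc 1 / b ^ 2 * abs (v - u) < 1 / b ^ 2 * (ε * b ^ 2) :=
        mul_lt_mul_of_pos_left hv (by positivity)
    _ = ε := by field_simp

theorem tent_left {b u : ℝ} (hb : 0 < b) (hb2 : b ≤ 1 / 2) (h0 : 0 ≤ u) (h1 : u ≤ b) :
    tent b u = 1 / b * (1 - u / b) := by
  rw [tent_fract, Int.fract_eq_self.2 ⟨h0, by linarith⟩, min_eq_left (by linarith), max_eq_right]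
  have : u / b ≤ 1 := by rw [div_le_one hb]; exact h1
  linarith

theorem tent_mid {b u : ℝ} (hb : 0 < b) (h0 : b ≤ u) (h1 : u ≤ 1 - b) : tent b u = 0 := by
  rw [tent_fract, Int.fract_eq_self.2 ⟨by linarith, by linarith⟩, max_eq_left, mul_zero]
  have : 1 ≤ min u (1 - u) / b := by
    rw [le_div_iff₀ hb, one_mul]
    exact le_min h0 (by linarith)
  linarith

theorem tent_right {b u : ℝ} (hb : 0 < b) (hb2 : b ≤ 1 / 2) (h0 : 1 - b ≤ u) (h1 : u ≤ 1) :
    tent b u = 1 / b * (1 - (1 - u) / b) := by
  rcases eq_or_lt_of_le h1 with h | h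
  · subst h
    rw [tent_fract, Int.fract_one]
    simp
  · rw [tent_fract, Int.fract_eq_self.2 ⟨by linarith, h⟩, min_eq_right (by linarith), max_eq_right]
    have : (1 - u) / b ≤ 1 := by rw [div_le_one hb]; linarith
    linarith

theorem tent_integral {b : ℝ} (hb : 0 < b) (hb2 : b ≤ 1 / 2) :
    (∫ u in (0 : ℝ)..1, tent b u) = 1 := by
  have hc := tent_cont hb
  have hi : ∀ y z : ℝ, IntervalIntegrable (tent b) volume y z := fun y z =>
    hc.intervalIntegrable y z
  rw [← intervalIntegral.integral_add_adjacent_intervals (hi 0 b) (hi b 1),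
    ← intervalIntegral.integral_add_adjacent_intervals (hi b (1 - b)) (hi (1 - b) 1)]
  have h1 : (∫ u in (0 : ℝ)..b, tent b u) = 1 / 2 := by
    rw [intervalIntegral.integral_congr (g := fun u => 1 / b - 1 / b ^ 2 * u)]
    · rw [intervalIntegral.integral_sub (continuous_const.intervalIntegrable _ _)
          ((by fun_prop : Continuous fun u : ℝ => 1 / b ^ 2 * u).intervalIntegrable _ _),
        intervalIntegral.integral_const, intervalIntegral.integral_const_mul, integral_id]
      simp only [smul_eq_mul]
      field_simp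
      ring
    · intro u hu
      rw [Set.uIcc_of_le hb.le] at hu
      show tent b u = _
      rw [tent_left hb hb2 hu.1 hu.2]
      field_simp
  have h2 : (∫ u in b..(1 - b), tent b u) = 0 := by
    rw [intervalIntegral.integral_congr (g := fun _ => (0 : ℝ))]
    · simp
    · intro u hu
      rw [Set.uIcc_of_le (by linarith)] at hu
      exact tent_mid hb hu.1 hu.2
  have h3 : (∫ u in (1 - b)..1, tent b u) = 1 / 2 := by
    rw [intervalIntegral.integral_congr (g := fun u => (1 / b - 1 / b ^ 2) + 1 / b ^ 2 * u)]
    · rw [intervalIntegral.integral_add (continuous_const.intervalIntegrable _ _)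
          ((by fun_prop : Continuous fun u : ℝ => 1 / b ^ 2 * u).intervalIntegrable _ _),
        intervalIntegral.integral_const, intervalIntegral.integral_const_mul, integral_id]
      simp only [smul_eq_mul]
      field_simp
      ring
    · intro u hu
      rw [Set.uIcc_of_le (by linarith)] at hu
      show tent b u = _
      rw [tent_right hb hb2 hu.1 hu.2]
      field_simp
      ring
  rw [h1, h2, h3]
  norm_num

/-- the weight `1 / 2 + tent / 2` -/
noncomputable def vv (b u : ℝ) : ℝ := 1 / 2 + tent b u / 2

theorem vv_nonneg {b : ℝ} (hb : 0 < b) (u : ℝ) : 0 ≤ vv b u := by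
  unfold vv
  have : 0 ≤ tent b u := by unfold tent; positivity
  linarith

theorem vv_periodic (b : ℝ) : Function.Periodic (vv b) 1 := by
  intro u
  unfold vv
  rw [tent_periodic b u]

theorem vv_lip {b : ℝ} (hb : 0 < b) (u v : ℝ) :
    abs (vv b u - vv b v) ≤ 1 / (2 * b ^ 2) * abs (u - v) := by
  have h1 : vv b u - vv b v = (tent b u - tent b v) / 2 := by unfold vv; ring
  rw [h1, abs_div, abs_of_pos (show (0 : ℝ) < 2 by norm_num)]
  have h2 := tent_lip hb u v
  have h3 : 1 / (2 * b ^ 2) * abs (u - v) = 1 / b ^ 2 * abs (u - v) / 2 := by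
    field_simp
  rw [h3]
  linarith

theorem vv_integral {b : ℝ} (hb : 0 < b) (hb2 : b ≤ 1 / 2) :
    (∫ u in (0 : ℝ)..1, vv b u) ≤ 1 := by
  have hc := tent_cont hb
  unfold vv
  rw [intervalIntegral.integral_add (by simp) ((hc.div_const 2).intervalIntegrable _ _),
    intervalIntegral.integral_const, intervalIntegral.integral_div, tent_integral hb hb2]
  norm_num

end Pool.Agent.Helper81.RG
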