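import Pool.Agent.Helper81.RG.Energy
import Pool.Agent.Helper81.RG.TentLip
import Pool.Agent.Helper7.ET.Cone
import Pool.Agent.Helper48.RG.Main

/-!
The finite theorem: a finite set with gaps modulo the members of a sparse list of real moduli has a
large additive energy.
-/

set_option autoImplicit false

open Finset MeasureTheory intervalIntegral

namespace Pool.Agent.Helper81.RG

open Pool.Agent.Helper25.RC (repF)

/-- THE FINITE THEOREM. -/
theorem rgfin {b : ℝ} (hb : 0 < b) (hb2 : b ≤ 1 / 2) : Pool.Agent.Helper48.RG.RGfin b := by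
  intro S x k M hS h0 hM hx hgap
  refine energy_of_growth hS (vv b) (vv_nonneg hb) (vv_periodic b) hb hb2 (vv_lip hb)
    (vv_integral hb hb2) M k h0 hM hx ?_
  have h1 := Pool.Agent.Helper7.ET.growth_tent S hb hb2 M k hgap
  have e1 : (b / (1 - b)) ^ 3 / 2 = 1 / (2 * (1 / b - 1) ^ 3) := by
    have hb3 : 1 - b ≠ 0 := by linarith
    have e2 : 1 / b - 1 = (1 - b) / b := by field_simp
    rw [e2, div_pow, div_pow]
    have hb4 : b ≠ 0 := hb.ne'
    field_simp
  rw [e1] at h1
  refine h1.trans_eq ?_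
  unfold quad vv
  refine Finset.sum_congr rfl fun p _ => Finset.prod_congr rfl fun i _ => ?_
  have e3 : (((((p.1.1 : ℤ) + p.1.2) - (p.2.1 + p.2.2) : ℤ) : ℝ))
      = (p.1.1 : ℝ) + p.1.2 - (p.2.1 + p.2.2) := by push_cast; ring
  rw [e3]

end Pool.Agent.Helper81.RG
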