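import Mathlib

/-!
Sums over integers of products of periodic weights at real lacunary scales.
-/

set_option autoImplicit false

open Finset MeasureTheory intervalIntegral

namespace Pool.Agent.Helper81.RG

/-- the product of the weights at the scales `M 1, …, M k` -/
noncomputable def WK (V : ℝ → ℝ) (M : ℕ → ℝ) (k : ℕ) (s : ℝ) : ℝ :=
  ∏ i ∈ range k, V (s / M (i + 1))

/-- the sum of `g` over the integers in `[y, z)` -/
noncomputable def sumI (g : ℝ → ℝ) (y z : ℝ) : ℝ := ∑ d ∈ Ico ⌈y⌉ ⌈z⌉, g (d : ℝ)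

theorem sumI_add (g : ℝ → ℝ) {y z w : ℝ} (h1 : y ≤ z) (h2 : z ≤ w) :
    sumI g y w = sumI g y z + sumI g z w := by
  unfold sumI
  rw [← Finset.sum_union (Finset.Ico_disjoint_Ico_consecutive _ _ _),
    Finset.Ico_union_Ico_eq_Ico (Int.ceil_le_ceil h1) (Int.ceil_le_ceil h2)]

theorem sumI_pieces (g : ℝ → ℝ) (y l : ℝ) (hl : 0 ≤ l) (N : ℕ) :
    sumI g y (y + N * l) = ∑ j ∈ range N, sumI g (y + j * l) (y + (j + 1 : ℕ) * l) := by
  induction N with
  | zero => simp [sumI]
  | succ n ih =>
    rw [Finset.sum_range_succ, ← ih]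
    refine sumI_add g ?_ ?_
    · have : 0 ≤ (n : ℝ) * l := by positivity
      linarith
    · push_cast
      nlinarith

theorem sumI_mono (g : ℝ → ℝ) (hg : ∀ s, 0 ≤ g s) {y z w : ℝ} (h : z ≤ w) :
    sumI g y z ≤ sumI g y w := by
  unfold sumI
  exact Finset.sum_le_sum_of_subset_of_nonneg
    (Finset.Ico_subset_Ico le_rfl (Int.ceil_le_ceil h)) (fun d _ _ => hg _)

theorem sumI_one (y L : ℝ) (hL : 0 ≤ L) : sumI (fun _ => 1) y (y + L) ≤ L + 1 := by
  unfold sumI
  rw [Finset.sum_const, nsmul_eq_mul, mul_one, Int.card_Ico]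
  have h1 : ⌈y⌉ ≤ ⌈y + L⌉ := Int.ceil_le_ceil (by linarith)
  have h2 : (((⌈y + L⌉ - ⌈y⌉).toNat : ℕ) : ℝ) = (⌈y + L⌉ : ℝ) - ⌈y⌉ := by
    have : (((⌈y + L⌉ - ⌈y⌉).toNat : ℕ) : ℤ) = ⌈y + L⌉ - ⌈y⌉ := Int.toNat_of_nonneg (by omega)
    have h3 : ((((⌈y + L⌉ - ⌈y⌉).toNat : ℕ) : ℤ) : ℝ) = ((⌈y + L⌉ - ⌈y⌉ : ℤ) : ℝ) := by
      rw [this]
    push_cast at h3
    exact_mod_cast h3
  rw [h2]
  have h3 := Int.ceil_lt_add_one (y + L)
  have h4 := Int.le_ceil y
  linarith

section
variable (V : ℝ → ℝ) (hV0 : ∀ u, 0 ≤ V u) (hper : Function.Periodic V 1) (κ : ℝ) (hκ : 0 ≤ κ)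
  (hLip : ∀ u v, |V u - V v| ≤ κ * |u - v|) (hint : (∫ u in (0 : ℝ)..1, V u) ≤ 1)

include hLip in
theorem cont_V : Continuous V := by
  rw [Metric.continuous_iff]
  intro u ε hε
  refine ⟨ε / (|κ| + 1), by positivity, fun v hv => ?_⟩
  rw [Real.dist_eq] at hv ⊢
  have h1 := hLip v u
  have h2 : κ * |v - u| ≤ |κ| * |v - u| :=
    mul_le_mul_of_nonneg_right (le_abs_self κ) (abs_nonneg _)
  have h3 : |v - u| * (|κ| + 1) < ε := by
    rwa [lt_div_iff₀ (by positivity)] at hv
  have h4 := abs_nonneg (v - u)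
  have h5 : |κ| * |v - u| ≤ |v - u| * (|κ| + 1) := by nlinarith
  linarith

include hV0 hper hLip hint in
theorem integral_le (M : ℝ) (hM : 0 < M) (y D : ℝ) (hD : 0 ≤ D) :
    (∫ u in y..(y + D), V (u / M)) ≤ D + M := by
  have hc := cont_V V κ hLip
  have h1 : (∫ u in y..(y + D), V (u / M)) = M * ∫ u in (y / M)..((y + D) / M), V u := by
    rw [intervalIntegral.integral_comp_div _ hM.ne', smul_eq_mul]
  rw [h1]
  set n : ℕ := ⌈D / M⌉₊ with hn
  have h2 : D / M ≤ n := Nat.le_ceil _
  have h3 : (n : ℝ) ≤ D / M + 1 := (Nat.ceil_lt_add_one (by positivity)).le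
  have h4 : (∫ u in (y / M)..((y + D) / M), V u) ≤ ∫ u in (y / M)..(y / M + n), V u := by
    refine intervalIntegral.integral_mono_interval le_rfl ?_ ?_ ?_ ?_
    · rw [div_le_div_iff_of_pos_right hM]; linarith
    · rw [add_div]; linarith
    · exact Filter.Eventually.of_forall fun u => hV0 u
    · exact hc.intervalIntegrable _ _
  have h5 : (∫ u in (y / M)..(y / M + n), V u) = n * ∫ u in (0 : ℝ)..1, V u := by
    have := hper.intervalIntegral_add_zsmul_eq (n : ℤ) (y / M)
      (fun a b => hc.intervalIntegrable a b)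
    simp only [zsmul_eq_mul, Int.cast_natCast, mul_one] at this
    rw [this]
    have h7 := hper.intervalIntegral_add_eq (y / M) 0
    rw [zero_add] at h7
    rw [h7]
  have h6 : (∫ u in (y / M)..((y + D) / M), V u) ≤ n := by
    rw [h5] at h4
    have : (n : ℝ) * ∫ u in (0 : ℝ)..1, V u ≤ n * 1 :=
      mul_le_mul_of_nonneg_left hint (by positivity)
    linarith
  calc M * ∫ u in (y / M)..((y + D) / M), V u ≤ M * (D / M + 1) :=
        mul_le_mul_of_nonneg_left (h6.trans h3) hM.le
    _ = D + M := by field_simp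

include hLip hκ in
theorem point_le (M : ℝ) (hM : 0 < M) (y l d : ℝ) (h1 : y ≤ d) (h2 : d ≤ y + l) :
    l * V (d / M) ≤ (∫ u in y..(y + l), V (u / M)) + κ * l ^ 2 / M := by
  have hc := cont_V V κ hLip
  have hl : 0 ≤ l := by linarith
  have hc' : Continuous fun u => V (u / M) := hc.comp (continuous_id.div_const M)
  have h3 : l * V (d / M) = ∫ _u in y..(y + l), V (d / M) := by
    rw [intervalIntegral.integral_const, smul_eq_mul]; ring
  have h4 : (∫ u in y..(y + l), V (u / M)) + κ * l ^ 2 / M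
      = ∫ u in y..(y + l), (V (u / M) + κ * l / M) := by
    rw [intervalIntegral.integral_add (hc'.intervalIntegrable _ _)
      (continuous_const.intervalIntegrable _ _), intervalIntegral.integral_const, smul_eq_mul]
    ring
  rw [h3, h4]
  refine intervalIntegral.integral_mono_on (by linarith)
    (continuous_const.intervalIntegrable _ _)
    ((hc'.add continuous_const).intervalIntegrable _ _) ?_
  intro u hu
  have h5 := hLip (d / M) (u / M)
  have h6 : |d / M - u / M| ≤ l / M := by
    rw [← sub_div, abs_div, abs_of_pos hM]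
    refine div_le_div_of_nonneg_right ?_ hM.le
    rw [abs_le]
    constructor <;> linarith [hu.1, hu.2]
  have h7 : κ * |d / M - u / M| ≤ κ * (l / M) := mul_le_mul_of_nonneg_left h6 hκ
  have h8 := le_abs_self (V (d / M) - V (u / M))
  have h9 : κ * (l / M) = κ * l / M := by ring
  linarith

include hV0 in
theorem WK_nonneg (M : ℕ → ℝ) (k : ℕ) (s : ℝ) : 0 ≤ WK V M k s :=
  Finset.prod_nonneg fun _ _ => hV0 _

include hV0 hper hκ hLip hint in
theorem upper (ρ : ℝ) (hρ : 1 ≤ ρ) (M : ℕ → ℝ) (hM0 : M 0 = 1) (k : ℕ) :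
    (∀ i < k, ρ ^ 2 * M i ≤ M (i + 1)) → ∀ y L : ℝ, ρ * M k ≤ L →
      sumI (WK V M k) y (y + L) ≤ L * (1 + (2 + 2 * κ) / ρ) ^ (k + 1) := by
  have hρ0 : 0 < ρ := by linarith
  set η : ℝ := (2 + 2 * κ) / ρ with hη
  have hη0 : 0 ≤ η := by positivity
  induction k with
  | zero =>
    intro _ y L hL
    have hL1 : ρ ≤ L := by simpa [hM0] using hL
    have hL0 : 0 ≤ L := by linarith
    have h1 : sumI (WK V M 0) y (y + L) = sumI (fun _ => 1) y (y + L) := by
      unfold sumI WK; simp
    rw [h1, zero_add, pow_one]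
    refine (sumI_one y L hL0).trans ?_
    have h2 : 1 ≤ L * η := by
      rw [hη]
      have : ρ * ((2 + 2 * κ) / ρ) ≤ L * ((2 + 2 * κ) / ρ) :=
        mul_le_mul_of_nonneg_right hL1 hη0
      have h3 : ρ * ((2 + 2 * κ) / ρ) = 2 + 2 * κ := by field_simp
      linarith
    linarith
  | succ k ih =>
    intro hM y L hL
    have hMpos : ∀ i ≤ k + 1, 0 < M i := by
      intro i
      induction i with
      | zero => intro _; rw [hM0]; norm_num
      | succ i ih' =>
        intro hi
        have := ih' (by omega)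
        exact lt_of_lt_of_le (by positivity) (hM i (by omega))
    replace ih := ih fun i hi => hM i (by omega)
    set m : ℝ := M (k + 1) with hm
    have hm0 : 0 < m := hMpos _ le_rfl
    set l : ℝ := ρ * M k with hl
    have hl0 : 0 < l := mul_pos hρ0 (hMpos k (by omega))
    have hlm : ρ * l ≤ m := by
      have := hM k (by omega)
      rw [hl, hm]; nlinarith
    have hL0 : 0 < L := lt_of_lt_of_le (by positivity) hL
    set N : ℕ := ⌈L / l⌉₊ with hN
    have hN1 : L ≤ N * l := by
      have := Nat.le_ceil (L / l)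
      rwa [div_le_iff₀ hl0] at this
    have hN2 : (N : ℝ) * l ≤ L + l := by
      have := (Nat.ceil_lt_add_one (show 0 ≤ L / l by positivity)).le
      have h2 : (N : ℝ) * l ≤ (L / l + 1) * l := mul_le_mul_of_nonneg_right this hl0.le
      have h3 : (L / l + 1) * l = L + l := by field_simp
      linarith
    have hg : ∀ s, 0 ≤ WK V M (k + 1) s := WK_nonneg V hV0 M (k + 1)
    refine (sumI_mono _ hg (show y + L ≤ y + N * l by linarith)).trans ?_
    rw [sumI_pieces _ _ _ hl0.le]
    set P : ℝ := (1 + η) ^ (k + 1) with hP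
    have hP0 : 0 < P := by positivity
    have hpiece : ∀ j ∈ range N, sumI (WK V M (k + 1)) (y + j * l) (y + (j + 1 : ℕ) * l)
        ≤ P * ((∫ u in (y + j * l)..(y + (j + 1 : ℕ) * l), V (u / m)) + κ * l ^ 2 / m) := by
      intro j _
      set z : ℝ := y + j * l with hz
      have hz1 : y + (j + 1 : ℕ) * l = z + l := by push_cast; rw [hz]; ring
      rw [hz1]
      set I : ℝ := (∫ u in z..(z + l), V (u / m)) + κ * l ^ 2 / m with hI
      have hI0 : 0 ≤ I := by
        have := point_le V κ hκ hLip m hm0 z l z le_rfl (by linarith)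
        have h2 : 0 ≤ l * V (z / m) := mul_nonneg hl0.le (hV0 _)
        linarith
      have h1 : sumI (WK V M (k + 1)) z (z + l) ≤ (I / l) * sumI (WK V M k) z (z + l) := by
        unfold sumI
        rw [Finset.mul_sum]
        refine Finset.sum_le_sum fun d hd => ?_
        rw [Finset.mem_Ico, Int.ceil_le, Int.lt_ceil] at hd
        have h2 := point_le V κ hκ hLip m hm0 z l d hd.1 hd.2.le
        have h3 : V (d / m) ≤ I / l := by
          rw [le_div_iff₀ hl0]; linarith
        have h4 : WK V M (k + 1) d = WK V M k d * V (d / m) := by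
          unfold WK; rw [Finset.prod_range_succ]
        rw [h4, mul_comm]
        exact mul_le_mul_of_nonneg_right h3 (WK_nonneg V hV0 M k _)
      have h2 := ih z l le_rfl
      calc sumI (WK V M (k + 1)) z (z + l) ≤ (I / l) * sumI (WK V M k) z (z + l) := h1
        _ ≤ (I / l) * (l * P) := mul_le_mul_of_nonneg_left h2 (by positivity)
        _ = P * I := by field_simp
    refine (Finset.sum_le_sum hpiece).trans ?_
    rw [← Finset.mul_sum, Finset.sum_add_distrib, Finset.sum_const, Finset.card_range,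
      nsmul_eq_mul]
    have hc := cont_V V κ hLip
    have hc' : Continuous fun u => V (u / m) := hc.comp (continuous_id.div_const m)
    have hsum : ∑ j ∈ range N, (∫ u in (y + j * l)..(y + (j + 1 : ℕ) * l), V (u / m))
        = ∫ u in y..(y + N * l), V (u / m) := by
      have := intervalIntegral.sum_integral_adjacent_intervals (f := fun u => V (u / m))
        (μ := volume) (a := fun j : ℕ => y + j * l) (n := N)
        (fun j _ => hc'.intervalIntegrable _ _)
      simpa using this
    rw [hsum]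
    have h3 := integral_le V hV0 hper κ hLip hint m hm0 y (N * l) (by positivity)
    have hlL : l ≤ L / ρ ^ 2 := by
      rw [le_div_iff₀ (by positivity)]
      nlinarith
    have hmL : m ≤ L / ρ := by
      rw [le_div_iff₀ hρ0]; linarith
    have hlm' : l / m ≤ 1 / ρ := by
      rw [div_le_div_iff₀ hm0 hρ0]; linarith
    have hρ2 : 1 / ρ ^ 2 ≤ 1 / ρ := by
      refine one_div_le_one_div_of_le hρ0 ?_
      nlinarith
    have hρ3 : 1 / ρ ≤ 1 := by
      rw [div_le_one hρ0]; exact hρ
    have hNl : (N : ℝ) * l ≤ L * (1 + 1 / ρ) := by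
      have : L / ρ ^ 2 ≤ L * (1 / ρ) := by
        rw [div_eq_mul_one_div]
        exact mul_le_mul_of_nonneg_left hρ2 hL0.le
      linarith
    have h4 : (N : ℝ) * (κ * l ^ 2 / m) ≤ L * (2 * κ / ρ) := by
      have e1 : (N : ℝ) * (κ * l ^ 2 / m) = κ * (N * l) * (l / m) := by ring
      rw [e1]
      have e2 : κ * (N * l) ≤ κ * (L * 2) := by
        refine mul_le_mul_of_nonneg_left ?_ hκ
        refine hNl.trans ?_
        exact mul_le_mul_of_nonneg_left (by linarith) hL0.le
      calc κ * (N * l) * (l / m) ≤ κ * (L * 2) * (1 / ρ) :=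
            mul_le_mul e2 hlm' (by positivity) (by positivity)
        _ = L * (2 * κ / ρ) := by ring
    have h5 : (∫ u in y..(y + N * l), V (u / m)) + N * (κ * l ^ 2 / m) ≤ L * (1 + η) := by
      have e1 : L / ρ = L * (1 / ρ) := by ring
      have e2 : L * (1 + η) = L + L * (1 / ρ) + L * (1 / ρ) + L * (2 * κ / ρ) := by
        rw [hη]; ring
      have e3 : L * (1 + 1 / ρ) = L + L * (1 / ρ) := by ring
      rw [e2]
      linarith
    calc P * ((∫ u in y..(y + N * l), V (u / m)) + N * (κ * l ^ 2 / m))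
        ≤ P * (L * (1 + η)) := mul_le_mul_of_nonneg_left h5 hP0.le
      _ = L * (1 + η) ^ (k + 1 + 1) := by rw [hP, pow_succ _ (k + 1)]; ring

end

end Pool.Agent.Helper81.RG
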